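import Pool.Agent.H74.TSD.Targets

set_option autoImplicit false

open MeasureTheory Set Metric Filter
open scoped ENNReal Pointwise Topology

namespace Pool.Agent.H49.TSD

open Pool.Agent.H74.TSD Pool.Agent.H73.TS

theorem pf_NC : T_NC := by
  intro d f W
  have hN : Nrm f W = (⋃ i, (Submodule.span ℝ {f i} : Set (E d →L[ℝ] ℝ))) ∪
      (W : Set (E d →L[ℝ] ℝ)) := by
    ext g
    constructor
    · rintro (⟨i, a, rfl⟩ | hg)
      · left
        exact mem_iUnion.2 ⟨i, Submodule.smul_mem _ _ (Submodule.mem_span_singleton_self _)⟩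
      · right; exact hg
    · rintro (hg | hg)
      · obtain ⟨i, hi⟩ := mem_iUnion.1 hg
        obtain ⟨a, ha⟩ := Submodule.mem_span_singleton.1 hi
        exact Or.inl ⟨i, a, ha.symm⟩
      · exact Or.inr hg
  have : FiniteDimensional ℝ (E d →L[ℝ] ℝ) := inferInstance
  refine ⟨?_, ?_⟩
  · rw [hN]
    refine IsClosed.union (isClosed_iUnion_of_finite fun i => ?_) ?_
    · exact Submodule.closed_of_finiteDimensional _
    · exact Submodule.closed_of_finiteDimensional _
  · rintro g (⟨i, b, rfl⟩ | hg) a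
    · exact Or.inl ⟨i, a * b, by rw [smul_smul]⟩
    · exact Or.inr (W.smul_mem a hg)

end Pool.Agent.H49.TSD
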